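import Pool.Agent.E8helper57.AV.Stm

/-!
# Project AV, piece SPARSE
-/

set_option autoImplicit false

namespace Pool.Agent.E8helper13.AV

open Finset Pool.Agent.E8helper57.AV Pool.Agent.E8helper57.AV.Arr

variable {n : ℕ} (A : Arr n)

theorem M_pos (c : Fin n) : 0 < (A.M : ℤ) := by
  have h1 := A.lt c
  have h2 := A.gap c
  omega

/-- presence, without remainders -/
theorem pr_iff (c : Fin n) (p : ℤ) : A.pr c p = true ↔
    ∃ i : ℤ, A.st c < p + 2 * A.M * i ∧ p + 2 * A.M * i ≤ A.en c := by
  have hM := M_pos A c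
  unfold pr
  rw [decide_eq_true_iff]
  constructor
  · intro h
    refine ⟨-((p - A.st c - 1) / (2 * A.M)), ?_, ?_⟩
    · have h1 := Int.emod_add_mul_ediv (p - A.st c - 1) (2 * A.M)
      have h2 := Int.emod_nonneg (p - A.st c - 1) (show (2 * A.M : ℤ) ≠ 0 by omega)
      rw [mul_neg]
      linarith
    · have h1 := Int.emod_add_mul_ediv (p - A.st c - 1) (2 * A.M)
      rw [mul_neg]
      linarith
  · rintro ⟨i, h1, h2⟩
    have h3 : (p - A.st c - 1) % (2 * A.M) = p + 2 * A.M * i - A.st c - 1 := by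
      have h4 : p - A.st c - 1 = (p + 2 * A.M * i - A.st c - 1) + (2 * A.M) * (-i) := by ring
      rw [h4, Int.add_mul_emod_self_left]
      apply Int.emod_eq_of_lt
      · linarith
      · have := A.gap c
        linarith
    rw [h3]
    linarith

/-- the arc `c` is on the line of `p` -/
def onL (c : Fin n) (p : ℤ) : Prop := A.pr c p = true ∨ A.pr c (p + A.M) = true

instance (c : Fin n) (p : ℤ) : Decidable (onL A c p) := by unfold onL; infer_instance

theorem onL_iff (c : Fin n) (p : ℤ) : onL A c p ↔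
    ∃ i : ℤ, A.st c < p + A.M * i ∧ p + A.M * i ≤ A.en c := by
  unfold onL
  rw [pr_iff, pr_iff]
  constructor
  · rintro (⟨i, h1, h2⟩ | ⟨i, h1, h2⟩)
    · exact ⟨2 * i, by linarith, by linarith⟩
    · exact ⟨2 * i + 1, by linarith, by linarith⟩
  · rintro ⟨i, h1, h2⟩
    rcases Int.even_or_odd' i with ⟨j, rfl | rfl⟩
    · exact Or.inl ⟨j, by linarith, by linarith⟩
    · exact Or.inr ⟨j, by linarith, by linarith⟩

/-- two arcs on a common line: one is on the line of the start of the other -/
theorem start_line {a b : Fin n} (hab : a ≠ b) {p : ℤ} (ha : onL A a p) (hb : onL A b p) :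
    onL A b (A.st a) ∨ onL A a (A.st b) := by
  rw [onL_iff] at ha hb
  obtain ⟨i, h1, h2⟩ := ha
  obtain ⟨j, h3, h4⟩ := hb
  rw [onL_iff, onL_iff]
  rcases lt_trichotomy (p + A.M * i - A.st a) (p + A.M * j - A.st b) with h | h | h
  · refine Or.inl ⟨j - i, ?_, ?_⟩
    · have : (A.M : ℤ) * (j - i) = A.M * j - A.M * i := by ring
      rw [this]; linarith
    · have : (A.M : ℤ) * (j - i) = A.M * j - A.M * i := by ring
      rw [this]; linarith
  · exfalso
    apply hab
    apply A.ss
    refine ⟨i - j, ?_⟩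
    have : (A.M : ℤ) * (i - j) = A.M * i - A.M * j := by ring
    rw [this]; linarith
  · refine Or.inr ⟨i - j, ?_, ?_⟩
    · have : (A.M : ℤ) * (i - j) = A.M * i - A.M * j := by ring
      rw [this]; linarith
    · have : (A.M : ℤ) * (i - j) = A.M * i - A.M * j := by ring
      rw [this]; linarith

/-- an arc which is on the line of the start of `c` stays on the line -/
theorem onL_succ {c d : Fin n} (hcd : d ≠ c) (h : onL A d (A.st c)) : onL A d (A.st c + 1) := by
  rw [onL_iff] at h ⊢
  obtain ⟨i, h1, h2⟩ := h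
  refine ⟨i, by linarith, ?_⟩
  rcases lt_or_eq_of_le h2 with h3 | h3
  · linarith
  · exfalso
    apply A.se c d
    exact ⟨-i, by rw [mul_neg]; linarith⟩

theorem onL_self (c : Fin n) : onL A c (A.st c + 1) := by
  rw [onL_iff]
  have := A.lt c
  exact ⟨0, by linarith, by linarith⟩

theorem t_SPARSE : S_SPARSE := by
  intro n k A h
  classical
  -- the number of other arcs on the line of a start
  have hk : ∀ c : Fin n, #{d : Fin n | d ≠ c ∧ onL A d (A.st c)} ≤ k := by
    intro c
    have h1 := h (A.st c + 1)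
    have h2 : insert c ({d : Fin n | d ≠ c ∧ onL A d (A.st c)} : Finset (Fin n)) ⊆
        ({d : Fin n | A.pr d (A.st c + 1) ∨ A.pr d (A.st c + 1 + A.M)} : Finset (Fin n)) := by
      intro d hd
      rw [mem_insert, mem_filter] at hd
      rw [mem_filter]
      refine ⟨mem_univ _, ?_⟩
      rcases hd with rfl | ⟨_, hd1, hd2⟩
      · exact onL_self A _
      · exact onL_succ A hd1 hd2
    have h3 := card_le_card h2
    rw [card_insert_of_notMem (by simp)] at h3
    omega
  let T : Finset (Fin n × Fin n) := {x | x.2 ≠ x.1 ∧ onL A x.2 (A.st x.1)}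
  have hT : #T ≤ n * k := by
    have h1 : #T = ∑ c : Fin n, #{d : Fin n | d ≠ c ∧ onL A d (A.st c)} := by
      simp only [T, card_filter, Fintype.sum_prod_type]
    rw [h1]
    calc ∑ c : Fin n, #{d : Fin n | d ≠ c ∧ onL A d (A.st c)} ≤ ∑ _c : Fin n, k :=
          sum_le_sum fun c _ => hk c
      _ = n * k := by simp
  refine le_trans ?_ hT
  unfold E
  refine card_le_card_of_injOn
    (fun x => if onL A x.2 (A.st x.1) then (x.1, x.2) else (x.2, x.1)) ?_ ?_
  · intro x hx
    rw [mem_coe, mem_filter] at hx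
    obtain ⟨_, hlt, hne⟩ := hx
    have hex : ∃ p : ℤ, A.W k x.1 x.2 p = true := by
      obtain ⟨p, hp⟩ := card_ne_zero.1 hne
      rw [mem_filter] at hp
      exact ⟨p, hp.2⟩
    obtain ⟨p, hp⟩ := hex
    have hab : x.1 ≠ x.2 := hlt.ne
    have h1 : onL A x.1 p ∧ onL A x.2 p := by
      unfold W see side at hp
      simp only [Bool.and_eq_true, Bool.or_eq_true] at hp
      refine ⟨Or.inl hp.1, ?_⟩
      rcases hp.2 with h2 | h2
      · exact Or.inl h2.1
      · exact Or.inr h2.1
    have h2 := start_line A hab h1.1 h1.2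
    simp only [T, coe_filter, mem_univ, true_and, Set.mem_setOf_eq]
    split_ifs with h3
    · exact ⟨hab.symm, h3⟩
    · exact ⟨hab, h2.resolve_left h3⟩
  · intro x hx y hy hxy
    rw [mem_coe, mem_filter] at hx hy
    have h1 := hx.2.1
    have h2 := hy.2.1
    simp only at hxy
    split_ifs at hxy with h3 h4 h4
    · exact Prod.ext (Prod.mk.inj hxy).1 (Prod.mk.inj hxy).2
    · obtain ⟨e1, e2⟩ := Prod.mk.inj hxy
      rw [e1, e2] at h1
      exact absurd h1 (not_lt.2 h2.le)
    · obtain ⟨e1, e2⟩ := Prod.mk.inj hxy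
      rw [e1, e2] at h1
      exact absurd h1 (not_lt.2 h2.le)
    · exact Prod.ext (Prod.mk.inj hxy).2 (Prod.mk.inj hxy).1

end Pool.Agent.E8helper13.AV
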